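import Mathlib
import Pool.Agent.Q99.CL.Defs

set_option autoImplicit false

/-!
Basic facts about complex Lipschitz-free spaces; compact Lipschitz operators.
-/

namespace Q99.CL

open Set Topology Filter

variable {M : Type} [MetricSpace M] {o : M}

instance completeFree : CompleteSpace (FreeSp M o) := by
  have h : IsClosed ((LFree M o : Submodule ℂ (StrongDual ℂ (CLip0 M o))) :
      Set (StrongDual ℂ (CLip0 M o))) :=
    Submodule.isClosed_topologicalClosure (Submodule.span ℂ (Set.range (dlt M o)))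
  exact h.completeSpace_coe

/-- The inclusion into the dual. -/
noncomputable def inc (M : Type) [MetricSpace M] (o : M) :
    FreeSp M o →ₗ[ℂ] StrongDual ℂ (CLip0 M o) := (LFree M o).subtype

/-- The functional given by a Lipschitz function. -/
noncomputable def ev (g : CLip0 M o) : FreeSp M o →ₗ[ℂ] ℂ where
  toFun μ := inc M o μ g
  map_add' _ _ := rfl
  map_smul' _ _ := rfl

lemma ev_del (g : CLip0 M o) (x : M) : ev g (del o x) = g.fn x := rfl

lemma norm_ev_le (g : CLip0 M o) (μ : FreeSp M o) : ‖ev g μ‖ ≤ ‖g‖ * ‖μ‖ := by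
  rw [mul_comm]
  exact (inc M o μ).le_opNorm g

lemma norm_del_sub_le (x y : M) : ‖del o x - del o y‖ ≤ dist x y := by
  refine ContinuousLinearMap.opNorm_le_bound _ dist_nonneg fun f => ?_
  have := f.norm_sub_le' x y
  rw [mul_comm]
  exact this

/-- Real Lipschitz functions as complex ones. -/
noncomputable def ofR (g : M → ℝ) (h0 : g o = 0) (K : ℝ) (hK : 0 ≤ K)
    (h : ∀ x y, |g x - g y| ≤ K * dist x y) : CLip0 M o :=
  CLip0.mk (fun x => (g x : ℂ)) (by rw [h0]; rfl) K hK (fun x y => by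
    rw [← Complex.ofReal_sub, Complex.norm_real, Real.norm_eq_abs]; exact h x y)

lemma ofR_norm_le (g : M → ℝ) (h0 : g o = 0) (K : ℝ) (hK : 0 ≤ K)
    (h : ∀ x y, |g x - g y| ≤ K * dist x y) : ‖ofR g h0 K hK h‖ ≤ K :=
  CLip0.norm_le' _ hK (fun x y => by
    change ‖(g x : ℂ) - (g y : ℂ)‖ ≤ _
    rw [← Complex.ofReal_sub, Complex.norm_real, Real.norm_eq_abs]; exact h x y)

lemma ofR_fn (g : M → ℝ) (h0 : g o = 0) (K : ℝ) (hK : 0 ≤ K)
    (h : ∀ x y, |g x - g y| ≤ K * dist x y) (x : M) : (ofR g h0 K hK h).fn x = (g x : ℂ) := rfl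

lemma norm_del_sub (x y : M) : ‖del o x - del o y‖ = dist x y := by
  refine le_antisymm (norm_del_sub_le x y) ?_
  set g := ofR (fun z => dist z y - dist o y) (sub_self _) 1 zero_le_one (fun a b => by
    rw [sub_sub_sub_cancel_right, one_mul]
    exact abs_dist_sub_le a b y) with hg
  have h1 := norm_ev_le (o := o) g (del o x - del o y)
  have h2 : ‖g‖ ≤ 1 := ofR_norm_le _ _ _ _ _
  rw [map_sub, ev_del, ev_del, hg, ofR_fn, ofR_fn, ← Complex.ofReal_sub, Complex.norm_real,
    sub_sub_sub_cancel_right, dist_self, sub_zero, Real.norm_eq_abs, abs_of_nonneg dist_nonneg] at h1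
  exact h1.trans (mul_le_of_le_one_left (norm_nonneg _) h2)

lemma del_base : del o o = 0 := by
  have h := norm_del_sub_le (o := o) o o
  apply Subtype.ext
  ext f
  exact f.fn_base

lemma norm_del (x : M) : ‖del o x‖ = dist x o := by
  have h := norm_del_sub (o := o) x o
  rw [del_base, sub_zero] at h
  exact h

lemma isometry_del : Isometry (del o : M → FreeSp M o) :=
  Isometry.of_dist_eq fun x y => by rw [dist_eq_norm, norm_del_sub]

/-- Members of the span of evaluation functionals have finite support. -/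
lemma span_supp {μ : FreeSp M o} (hμ : μ ∈ Submodule.span ℂ (Set.range (del o))) :
    ∃ F : Set M, F.Finite ∧ ∀ f : CLip0 M o, (∀ x ∈ F, f.fn x = 0) → ev f μ = 0 := by
  induction hμ using Submodule.span_induction with
  | mem μ hμ =>
    obtain ⟨x, rfl⟩ := hμ
    exact ⟨{x}, Set.finite_singleton x, fun f hf => by rw [ev_del]; exact hf x rfl⟩
  | zero => exact ⟨∅, Set.finite_empty, fun f _ => map_zero _⟩
  | add μ ν _ _ h1 h2 =>
    obtain ⟨F, hF, h1⟩ := h1
    obtain ⟨G, hG, h2⟩ := h2
    refine ⟨F ∪ G, hF.union hG, fun f hf => ?_⟩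
    rw [map_add, h1 f fun x hx => hf x (Or.inl hx), h2 f fun x hx => hf x (Or.inr hx), add_zero]
  | smul c μ _ h1 =>
    obtain ⟨F, hF, h1⟩ := h1
    exact ⟨F, hF, fun f hf => by rw [map_smul, h1 f hf, smul_zero]⟩

lemma dense_span : Dense ((Submodule.span ℂ (Set.range (del o)) : Submodule ℂ (FreeSp M o)) :
    Set (FreeSp M o)) := by
  intro μ
  have hμ : inc M o μ ∈ closure ((Submodule.span ℂ (Set.range (dlt M o)) :
    Submodule ℂ (StrongDual ℂ (CLip0 M o))) : Set _) := μ.2
  rw [Metric.mem_closure_iff] at hμ ⊢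
  intro ε hε
  obtain ⟨ν, hν, hd⟩ := hμ ε hε
  have h2 : Submodule.span ℂ (Set.range (dlt M o)) =
      (Submodule.span ℂ (Set.range (del o))).map (inc M o) := by
    rw [Submodule.map_span, ← Set.range_comp]
    rfl
  have hν' : ν ∈ Submodule.span ℂ (Set.range (dlt M o)) := hν
  rw [h2] at hν'
  obtain ⟨κ, hκ, rfl⟩ := Submodule.mem_map.1 hν'
  refine ⟨κ, hκ, ?_⟩
  exact hd

/-- Uniform smallness on totally bounded sets of functions vanishing on a large finite set. -/
lemma finite_test {S : Set (FreeSp M o)} (hS : TotallyBounded S) {ε : ℝ} (hε : 0 < ε) :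
    ∃ F : Set M, F.Finite ∧ o ∈ F ∧ ∀ w ∈ S, ∀ g : CLip0 M o, ‖g‖ ≤ 1 → (∀ x ∈ F, g.fn x = 0) →
      ‖ev g w‖ ≤ ε := by
  obtain ⟨t, ht, hcov⟩ := Metric.totallyBounded_iff.1 hS (ε / 2) (by positivity)
  have hch : ∀ y : FreeSp M o, ∃ ν ∈ Submodule.span ℂ (Set.range (del o)), dist y ν < ε / 2 :=
    fun y => Metric.mem_closure_iff.1 (dense_span y) (ε / 2) (by positivity)
  choose ν hν1 hν2 using hch
  choose F hF1 hF2 using fun y => span_supp (hν1 y)
  refine ⟨{o} ∪ ⋃ y ∈ t, F y, (Set.finite_singleton o).union (ht.biUnion fun y _ => hF1 y),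
    Or.inl rfl, fun w hw g hg hgF => ?_⟩
  have h1 := hcov hw
  simp only [mem_iUnion, exists_prop] at h1
  obtain ⟨y, hy, hyw⟩ := h1
  have h2 : ev g (ν y) = 0 := hF2 y g fun x hx => hgF x (Or.inr (mem_biUnion hy hx))
  have h3 : ev g w = ev g (w - ν y) := by rw [map_sub, h2, sub_zero]
  have h4 : ‖w - ν y‖ ≤ ε := by
    rw [← dist_eq_norm]
    have := dist_triangle w y (ν y)
    rw [Metric.mem_ball] at hyw
    linarith [hν2 y]
  rw [h3]
  calc _ ≤ ‖g‖ * ‖w - ν y‖ := norm_ev_le _ _
    _ ≤ 1 * ε := mul_le_mul hg h4 (norm_nonneg _) zero_le_one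
    _ = ε := one_mul _

/-- Distinct points of a finite set are separated. -/
lemma exists_sep {F : Set M} (hF : F.Finite) : ∃ s : ℝ, 0 < s ∧ ∀ a ∈ F, ∀ b ∈ F, a ≠ b →
    s ≤ dist a b := by
  classical
  set P : Finset (M × M) := (hF.toFinset ×ˢ hF.toFinset).filter fun p => p.1 ≠ p.2 with hP
  rcases P.eq_empty_or_nonempty with h | h
  · refine ⟨1, one_pos, fun a ha b hb hab => ?_⟩
    exfalso
    have : (a, b) ∈ P := by
      rw [hP, Finset.mem_filter, Finset.mem_product]
      exact ⟨⟨hF.mem_toFinset.2 ha, hF.mem_toFinset.2 hb⟩, hab⟩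
    rw [h] at this
    simp at this
  · obtain ⟨p, hp, hmin⟩ := P.exists_min_image (fun p => dist p.1 p.2) h
    refine ⟨dist p.1 p.2, dist_pos.2 (Finset.mem_filter.1 hp).2, fun a ha b hb hab => ?_⟩
    exact hmin (a, b) (by
      rw [hP, Finset.mem_filter, Finset.mem_product]
      exact ⟨⟨hF.mem_toFinset.2 ha, hF.mem_toFinset.2 hb⟩, hab⟩)

/-- The bump. -/
noncomputable def bump (F : Set M) (hoF : o ∈ F) (u : M) (h : ℝ) (hh : ∀ a ∈ F, h ≤ dist a u) :
    CLip0 M o :=
  ofR (fun z => max 0 (h - dist z u)) (by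
    rw [max_eq_left]; linarith [hh o hoF]) 1 zero_le_one (fun a b => by
    rw [one_mul]
    have h1 := abs_max_sub_max_le_abs (h - dist a u) (h - dist b u) 0
    rw [max_comm (h - dist a u), max_comm (h - dist b u)] at h1
    refine h1.trans ?_
    rw [sub_sub_sub_cancel_left, abs_sub_comm]
    exact abs_dist_sub_le a b u)

section op

variable {f : M → M} {T : FreeSp M o →L[ℂ] FreeSp M o} (hT : ∀ x, T (del o x) = del o (f x))
  (hc : IsCompactOperator T)
include hT

lemma f_lip (x y : M) : dist (f x) (f y) ≤ ‖T‖ * dist x y := by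
  rw [← norm_del_sub (o := o) (f x) (f y), ← hT, ← hT, ← map_sub, ← norm_del_sub (o := o) x y]
  exact T.le_opNorm _

lemma f_base : f o = o := by
  have h := hT o
  rw [del_base, map_zero] at h
  have h1 := norm_del (o := o) (f o)
  rw [← h, norm_zero] at h1
  exact dist_eq_zero.1 h1.symm

include hc

omit hT in
lemma tb_ball' (ρ : ℝ) : TotallyBounded (T '' Metric.closedBall 0 ρ) :=
  (hc.isCompact_closure_image_closedBall (f := (T : FreeSp M o →ₗ[ℂ] FreeSp M o)) ρ).totallyBounded.subset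
    subset_closure

/-- Images of balls are totally bounded. -/
lemma tb_image (ρ : ℝ) : TotallyBounded (f '' Metric.closedBall o ρ) := by
  have h1 := totallyBounded_preimage (isometry_del (o := o)).isUniformInducing
    (tb_ball' (hc := hc) ρ)
  refine h1.subset ?_
  rintro _ ⟨x, hx, rfl⟩
  refine ⟨del o x, ?_, hT x⟩
  rw [mem_closedBall_zero_iff, norm_del]
  exact hx

/-- Local flatness. -/
lemma flat {ε : ℝ} (hε : 0 < ε) : ∃ δ : ℝ, 0 < δ ∧ ∀ x y : M, dist x y < δ →
    dist (f x) (f y) ≤ ε * dist x y := by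
  obtain ⟨F, hF, hoF, htest⟩ := finite_test (tb_ball' (hc := hc) 1) (show (0 : ℝ) < ε / 2 by positivity)
  obtain ⟨s, hs, hsep⟩ := exists_sep hF
  refine ⟨s / (2 * (‖T‖ + 1)), by positivity, fun x y hxy => ?_⟩
  rcases eq_or_ne x y with rfl | hne
  · simp
  have hd : 0 < dist x y := dist_pos.2 hne
  rcases eq_or_ne (f x) (f y) with hfe | hfne
  · rw [hfe, dist_self]; positivity
  have hfd : 0 < dist (f x) (f y) := dist_pos.2 hfne
  have hfs : 2 * dist (f x) (f y) < s := by
    have h1 := f_lip hT x y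
    rw [lt_div_iff₀ (by positivity)] at hxy
    nlinarith [norm_nonneg T]
  -- the test element
  have hw : ∀ g : CLip0 M o, ‖g‖ ≤ 1 → (∀ a ∈ F, g.fn a = 0) →
      ‖g.fn (f x) - g.fn (f y)‖ ≤ ε / 2 * dist x y := by
    intro g hg hgF
    have h1 := htest (T (((dist x y : ℝ) : ℂ)⁻¹ • (del o x - del o y))) ⟨_, ?_, rfl⟩ g hg hgF
    · rw [map_smul, map_smul, map_sub, map_sub, hT, hT, ev_del, ev_del, norm_smul, norm_inv,
        Complex.norm_real, Real.norm_eq_abs, abs_of_pos hd, inv_mul_le_iff₀ hd] at h1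
      linarith
    · rw [mem_closedBall_zero_iff, norm_smul, norm_inv, Complex.norm_real, Real.norm_eq_abs,
        abs_of_pos hd, norm_del_sub, inv_mul_cancel₀ hd.ne']
  set h := dist (f x) (f y) / 2 with hh
  have hh0 : 0 < h := by positivity
  by_cases hcase : ∀ a ∈ F, h ≤ dist a (f x)
  · have h1 := hw (bump F hoF (f x) h hcase) (ofR_norm_le _ _ _ _ _) (fun a ha => by
      change ((max 0 (h - dist a (f x)) : ℝ) : ℂ) = 0
      rw [max_eq_left (by linarith [hcase a ha])]; rfl)
    change ‖((max 0 (h - dist (f x) (f x)) : ℝ) : ℂ) -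
      ((max 0 (h - dist (f y) (f x)) : ℝ) : ℂ)‖ ≤ _ at h1
    rw [dist_self, sub_zero, max_eq_right hh0.le, dist_comm (f y), max_eq_left (by linarith),
      Complex.ofReal_zero, sub_zero, Complex.norm_real, Real.norm_eq_abs, abs_of_pos hh0] at h1
    linarith
  · push Not at hcase
    obtain ⟨a, ha, hax⟩ := hcase
    have hcase' : ∀ b ∈ F, h ≤ dist b (f y) := by
      intro b hb
      by_contra hcon
      push Not at hcon
      have h1 : a ≠ b := by
        rintro rfl
        have := dist_triangle_left (f x) (f y) a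
        linarith
      have h2 := hsep a ha b hb h1
      have h3 := dist_triangle4 a (f x) (f y) b
      rw [dist_comm (f y) b] at h3
      linarith
    have h1 := hw (bump F hoF (f y) h hcase') (ofR_norm_le _ _ _ _ _) (fun a ha => by
      change ((max 0 (h - dist a (f y)) : ℝ) : ℂ) = 0
      rw [max_eq_left (by linarith [hcase' a ha])]; rfl)
    change ‖((max 0 (h - dist (f x) (f y)) : ℝ) : ℂ) -
      ((max 0 (h - dist (f y) (f y)) : ℝ) : ℂ)‖ ≤ _ at h1
    rw [dist_self, sub_zero, max_eq_right hh0.le, max_eq_left (by linarith),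
      Complex.ofReal_zero, zero_sub, norm_neg, Complex.norm_real, Real.norm_eq_abs,
      abs_of_pos hh0] at h1
    linarith

/-- Radial flatness. -/
lemma radial : ∃ R : ℝ, 0 < R ∧ ∀ x : M, dist (f x) o ≤ R + dist x o / 2 := by
  obtain ⟨F, hF, hoF, htest⟩ := finite_test (tb_ball' (hc := hc) 1)
    (show (0 : ℝ) < 1 / 2 by positivity)
  obtain ⟨R, hR⟩ := (Metric.isBounded_iff_subset_closedBall o).1 hF.isBounded
  have hR0 : 0 ≤ R := by
    have := hR hoF
    rw [Metric.mem_closedBall, dist_self] at this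
    exact this
  refine ⟨R + 1, by positivity, fun x => ?_⟩
  rcases eq_or_ne x o with rfl | hne
  · rw [f_base hT, dist_self]; linarith
  have hd : 0 < dist x o := dist_pos.2 hne
  set g : CLip0 M o := ofR (fun z => max 0 (dist z o - R)) (by
    rw [max_eq_left]; rw [dist_self]; linarith) 1 zero_le_one (fun a b => by
    rw [one_mul]
    have h1 := abs_max_sub_max_le_abs (dist a o - R) (dist b o - R) 0
    rw [max_comm (dist a o - R), max_comm (dist b o - R)] at h1
    refine h1.trans ?_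
    rw [sub_sub_sub_cancel_right]
    exact abs_dist_sub_le a b o) with hg
  have h1 := htest (T (((dist x o : ℝ) : ℂ)⁻¹ • del o x)) ⟨_, by
    rw [mem_closedBall_zero_iff, norm_smul, norm_inv, Complex.norm_real, Real.norm_eq_abs,
      abs_of_pos hd, norm_del, inv_mul_cancel₀ hd.ne'], rfl⟩ g (ofR_norm_le _ _ _ _ _) (fun a ha => by
      rw [hg, ofR_fn, max_eq_left]
      · rfl
      · have := hR ha
        rw [Metric.mem_closedBall] at this
        linarith)
  rw [map_smul, map_smul, hT, ev_del, hg, ofR_fn, norm_smul, norm_inv,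
    Complex.norm_real, Complex.norm_real, Real.norm_eq_abs, Real.norm_eq_abs, abs_of_pos hd,
    abs_of_nonneg (le_max_left _ _), inv_mul_le_iff₀ hd] at h1
  have h2 := le_max_right 0 (dist (f x) o - R)
  linarith

end op

end Q99.CL
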