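import Mathlib

set_option autoImplicit false

/-!
Schauder's theorem: the dual of a compact operator is compact. Spectra of compact operators.
-/

namespace Q99.CL

open Set Topology Filter

variable {𝕜 : Type*} [RCLike 𝕜] {X Y : Type*} [NormedAddCommGroup X] [NormedSpace 𝕜 X]
  [NormedAddCommGroup Y] [NormedSpace 𝕜 Y]

/-- The dual operator. -/
noncomputable def dualOp (T : X →L[𝕜] Y) : StrongDual 𝕜 Y →L[𝕜] StrongDual 𝕜 X :=
  (ContinuousLinearMap.compL 𝕜 X Y 𝕜).flip T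

lemma dualOp_apply (T : X →L[𝕜] Y) (φ : StrongDual 𝕜 Y) (x : X) : dualOp T φ x = φ (T x) := rfl

/-- The dual of a compact operator is compact. -/
theorem compact_dualOp {T : X →L[𝕜] Y} (hT : IsCompactOperator T) :
    IsCompactOperator (dualOp T) := by
  have h1 : TotallyBounded (T '' Metric.closedBall 0 1) :=
    (hT.isCompact_closure_image_closedBall (f := (T : X →ₗ[𝕜] Y)) 1).totallyBounded.subset
      subset_closure
  have htb : TotallyBounded (dualOp T '' Metric.closedBall 0 1) := by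
    rw [Metric.totallyBounded_iff]
    intro ε hε
    obtain ⟨t, ht, hcov⟩ := Metric.totallyBounded_iff.1 h1 (ε / 8) (by positivity)
    -- evaluation at the points of `t`
    have hfin : Fintype t := ht.fintype
    let E : StrongDual 𝕜 Y →L[𝕜] (t → 𝕜) := ContinuousLinearMap.pi fun y =>
      ContinuousLinearMap.apply 𝕜 𝕜 (y : Y)
    have hb : Bornology.IsBounded (E '' Metric.closedBall 0 1) :=
      (E.lipschitz.isBounded_image Metric.isBounded_closedBall)
    have h2 : TotallyBounded (E '' Metric.closedBall 0 1) :=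
      (Metric.isCompact_of_isClosed_isBounded isClosed_closure hb.closure).totallyBounded.subset
        subset_closure
    have h2' := totallyBounded_iff_subset.1 h2 _ (Metric.dist_mem_uniformity
      (show (0 : ℝ) < ε / 8 by positivity))
    obtain ⟨s, hs1, hs2, hs3⟩ := h2'
    -- choose preimages
    have hch : ∀ a : s, ∃ φ : StrongDual 𝕜 Y, φ ∈ Metric.closedBall (0 : StrongDual 𝕜 Y) 1 ∧ E φ = a := by
      rintro ⟨a, ha⟩
      obtain ⟨φ, h, h'⟩ := hs1 ha
      exact ⟨φ, h, h'⟩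
    choose φ hφ1 hφ2 using hch
    have hsfin : Finite s := hs2.to_subtype
    refine ⟨range fun a => dualOp T (φ a), Set.finite_range _, ?_⟩
    rintro _ ⟨ψ, hψ, rfl⟩
    have h3 := hs3 ⟨ψ, hψ, rfl⟩
    simp only [mem_iUnion, mem_ofPred_eq, exists_prop] at h3
    obtain ⟨a, ha, had⟩ := h3
    simp only [mem_iUnion]
    refine ⟨_, ⟨⟨a, ha⟩, rfl⟩, ?_⟩
    rw [Metric.mem_ball, dist_eq_norm]
    refine lt_of_le_of_lt (b := ε / 2) ?_ (by linarith)
    refine ContinuousLinearMap.opNorm_le_bound' _ (by positivity) fun x hx => ?_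
    -- reduce to the unit ball
    have key : ∀ z : X, ‖z‖ ≤ 1 → ‖(dualOp T ψ - dualOp T (φ ⟨a, ha⟩)) z‖ ≤ ε / 2 := by
      intro z hz
      have h4 := hcov ⟨z, by simpa using hz, rfl⟩
      simp only [mem_iUnion, exists_prop] at h4
      obtain ⟨y, hy, hyd⟩ := h4
      rw [Metric.mem_ball, dist_eq_norm] at hyd
      have e1 : (dualOp T ψ - dualOp T (φ ⟨a, ha⟩)) z =
          ψ (T z - y) - (φ ⟨a, ha⟩) (T z - y) + (ψ y - φ ⟨a, ha⟩ y) := by
        rw [sub_apply, dualOp_apply, dualOp_apply, map_sub, map_sub]; ring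
      have a1 : ‖ψ (T z - y)‖ ≤ ε / 8 := by
        refine (ψ.le_opNorm _).trans ?_
        have : ‖ψ‖ ≤ 1 := by simpa using hψ
        calc _ ≤ 1 * (ε / 8) := mul_le_mul this hyd.le (norm_nonneg _) zero_le_one
          _ = _ := one_mul _
      have a2 : ‖(φ ⟨a, ha⟩) (T z - y)‖ ≤ ε / 8 := by
        refine ((φ ⟨a, ha⟩).le_opNorm _).trans ?_
        have : ‖φ ⟨a, ha⟩‖ ≤ 1 := by simpa using hφ1 ⟨a, ha⟩
        calc _ ≤ 1 * (ε / 8) := mul_le_mul this hyd.le (norm_nonneg _) zero_le_one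
          _ = _ := one_mul _
      have a3 : ‖ψ y - φ ⟨a, ha⟩ y‖ ≤ ε / 8 := by
        have h5 : dist (E ψ) a < ε / 8 := had
        have h6 : dist (E ψ ⟨y, hy⟩) (a ⟨y, hy⟩) ≤ dist (E ψ) a := dist_le_pi_dist _ _ _
        have h7 : a ⟨y, hy⟩ = φ ⟨a, ha⟩ y := by
          have := congrFun (hφ2 ⟨a, ha⟩) ⟨y, hy⟩
          exact this.symm
        rw [h7, dist_eq_norm] at h6
        exact h6.trans h5.le
      rw [e1]
      refine (norm_add_le _ _).trans ?_
      have a4 := norm_sub_le (ψ (T z - y)) ((φ ⟨a, ha⟩) (T z - y))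
      linarith
    have hx0 : (‖x‖ : 𝕜) ≠ 0 := by
      rw [Ne, RCLike.ofReal_eq_zero]; exact hx
    have h5 := key ((‖x‖ : 𝕜)⁻¹ • x) (by
      rw [norm_smul, norm_inv, RCLike.norm_ofReal, abs_norm, inv_mul_cancel₀ hx])
    rw [map_smul, norm_smul, norm_inv, RCLike.norm_ofReal, abs_norm,
      inv_mul_le_iff₀ (lt_of_le_of_ne (norm_nonneg _) (Ne.symm hx)), mul_comm] at h5
    exact h5
  exact (isCompactOperator_iff_isCompact_closure_image_closedBall
    (dualOp T : StrongDual 𝕜 Y →ₗ[𝕜] StrongDual 𝕜 X) (r := 1) one_pos).2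
    (htb.closure.isCompact_of_isClosed isClosed_closure)

/-- A nonzero point of the spectrum of a compact operator is an eigenvalue of its dual. -/
theorem exists_dual_eigenvector [CompleteSpace X] {T : X →L[𝕜] X} (hT : IsCompactOperator T) {μ : 𝕜}
    (hμ : μ ≠ 0) (h : μ ∈ spectrum 𝕜 T) : ∃ φ : StrongDual 𝕜 X, φ ≠ 0 ∧ ∀ x, φ (T x) = μ * φ x := by
  have h1 := (hT.hasEigenvalue_iff_mem_spectrum hμ).2 h
  obtain ⟨γ, hγ⟩ := h1.exists_hasEigenvector
  have hγ1 : T γ = μ • γ := hγ.apply_eq_smul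
  have hγ0 : γ ≠ 0 := hγ.2
  -- `μ` is in the spectrum of the dual
  have h2 : μ ∈ spectrum 𝕜 (dualOp T) := by
    rw [spectrum.mem_iff]
    intro hu
    obtain ⟨φ, hφ1, hφ2⟩ := exists_dual_vector'' 𝕜 γ
    obtain ⟨S, hS⟩ := hu.exists_right_inv
    have h4 := congrArg (fun R : StrongDual 𝕜 X →L[𝕜] StrongDual 𝕜 X => (R φ) γ) hS
    have h3 : ∀ ψ : StrongDual 𝕜 X, (μ • ψ - dualOp T ψ) γ = 0 := by
      intro ψ
      rw [sub_apply, smul_apply, dualOp_apply, hγ1, map_smul, sub_self]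
    have h6 : (μ • (S φ) - dualOp T (S φ)) γ = φ γ := h4
    rw [h3, hφ2] at h6
    have h5 : (‖γ‖ : 𝕜) ≠ 0 := by
      rw [Ne, RCLike.ofReal_eq_zero, norm_eq_zero]; exact hγ0
    exact h5 h6.symm
  obtain ⟨φ, hφ⟩ := ((compact_dualOp hT).hasEigenvalue_iff_mem_spectrum hμ).2 h2
    |>.exists_hasEigenvector
  refine ⟨φ, hφ.2, fun x => ?_⟩
  have h3 : dualOp T φ = μ • φ := hφ.apply_eq_smul
  have h4 := congrArg (fun ψ : StrongDual 𝕜 X => ψ x) h3
  exact h4

end Q99.CL
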