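import Mathlib
import Pool.Agent.Q99.CL.Basic
import Pool.Agent.Q99.CL.Schauder

set_option autoImplicit false

/-!
The spectrum of a compact Lipschitz operator.
-/

namespace Q99.CL

open Set Topology Filter

variable {M : Type} [MetricSpace M] {o : M} {f : M → M}

/-- Contraction along orbits. -/
lemma contract {ε δ : ℝ} (hε0 : 0 ≤ ε) (hε : ε ≤ 1)
    (hδ : ∀ x y : M, dist x y < δ → dist (f x) (f y) ≤ ε * dist x y) {a b : M}
    (hab : dist a b < δ) (n : ℕ) : dist (f^[n] a) (f^[n] b) ≤ ε ^ n * dist a b := by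
  have key : ∀ n, dist (f^[n] a) (f^[n] b) ≤ ε ^ n * dist a b ∧ dist (f^[n] a) (f^[n] b) < δ := by
    intro n
    induction n with
    | zero => simpa using hab
    | succ n ih =>
      rw [Function.iterate_succ_apply', Function.iterate_succ_apply']
      have h1 := hδ _ _ ih.2
      constructor
      · calc _ ≤ ε * dist (f^[n] a) (f^[n] b) := h1
          _ ≤ ε * (ε ^ n * dist a b) := mul_le_mul_of_nonneg_left ih.1 hε0
          _ = _ := by rw [pow_succ]; ring
      · exact lt_of_le_of_lt (h1.trans (mul_le_of_le_one_left dist_nonneg hε)) ih.2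
  exact (key n).1

/-- Orbits which stay in a totally bounded set approach periodic orbits. -/
lemma orbit [CompleteSpace M] (hfc : Continuous f) {S : Set M} (hS : TotallyBounded S) {x : M}
    (hx : ∀ n, f^[n + 1] x ∈ S) {ε δ : ℝ} (hε0 : 0 ≤ ε) (hε : ε ≤ 1 / 2) (hδ0 : 0 < δ)
    (hδ : ∀ x y : M, dist x y < δ → dist (f x) (f y) ≤ ε * dist x y) :
    ∃ (m p : ℕ) (y : M), 1 ≤ p ∧ f^[p] y = y ∧
      ∀ j, dist (f^[m + j] x) (f^[j] y) ≤ 2 * δ * ε ^ j := by
  -- two close points of the orbit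
  obtain ⟨m, p, hp, hclose⟩ : ∃ m p, 1 ≤ p ∧ dist (f^[m] x) (f^[m + p] x) < δ := by
    obtain ⟨t, ht, hcov⟩ := Metric.totallyBounded_iff.1 hS (δ / 2) (by positivity)
    have hch : ∀ n, ∃ y : t, dist (f^[n + 1] x) y < δ / 2 := by
      intro n
      have h1 := hcov (hx n)
      simp only [mem_iUnion, exists_prop] at h1
      obtain ⟨y, hy, hd⟩ := h1
      exact ⟨⟨y, hy⟩, hd⟩
    choose c hcd using hch
    have : Finite t := ht.to_subtype
    obtain ⟨i, j, hij, hcij⟩ := Finite.exists_ne_map_eq_of_infinite c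
    have main : ∀ i j, i < j → c i = c j → ∃ m p, 1 ≤ p ∧ dist (f^[m] x) (f^[m + p] x) < δ := by
      intro i j hlt hcij
      refine ⟨i + 1, j - i, by omega, ?_⟩
      have e : i + 1 + (j - i) = j + 1 := by omega
      rw [e]
      have h1 := hcd i
      have h2 := hcd j
      rw [← hcij] at h2
      have h3 := dist_triangle_right (f^[i + 1] x) (f^[j + 1] x) (c i : M)
      linarith
    rcases lt_or_gt_of_ne hij with h | h
    · exact main i j h hcij
    · exact main j i h hcij.symm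
  set a := f^[m] x with ha
  have hb : f^[m + p] x = f^[p] a := by
    rw [ha, ← Function.iterate_add_apply, add_comm]
  rw [hb] at hclose
  have hε1 : ε ≤ 1 := hε.trans (by norm_num)
  -- the subsequence
  let c : ℕ → M := fun i => f^[i * p] a
  have hcc : ∀ i j, dist (f^[j] (c i)) (f^[j] (c (i + 1))) ≤ δ * ε ^ j * (1 / 2) ^ i := by
    intro i j
    have e1 : f^[j] (c i) = f^[j + i * p] a := by
      simp only [c]; rw [← Function.iterate_add_apply]
    have e2 : f^[j] (c (i + 1)) = f^[j + i * p] (f^[p] a) := by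
      exact (Function.iterate_add_apply f j ((i + 1) * p) a).symm.trans
        (by rw [show j + (i + 1) * p = (j + i * p) + p by ring, Function.iterate_add_apply])
    rw [e1, e2]
    have h1 := contract hε0 hε1 hδ hclose (j + i * p)
    have h2 : ε ^ (j + i * p) ≤ ε ^ j * (1 / 2) ^ i := by
      rw [pow_add]
      refine mul_le_mul_of_nonneg_left ?_ (by positivity)
      calc ε ^ (i * p) ≤ ε ^ i := pow_le_pow_of_le_one hε0 hε1 (Nat.le_mul_of_pos_right i (by omega))
        _ ≤ (1 / 2) ^ i := pow_le_pow_left₀ hε0 hε i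
    calc _ ≤ ε ^ (j + i * p) * dist a (f^[p] a) := h1
      _ ≤ (ε ^ j * (1 / 2) ^ i) * δ := mul_le_mul h2 hclose.le dist_nonneg (by positivity)
      _ = _ := by ring
  have hcau : CauchySeq c := by
    refine cauchySeq_of_le_geometric (1 / 2) δ (by norm_num) fun i => ?_
    have := hcc i 0
    simpa using this
  obtain ⟨y, hy⟩ := cauchySeq_tendsto_of_complete hcau
  refine ⟨m, p, y, hp, ?_, fun j => ?_⟩
  · have h1 : Tendsto (fun i => f^[p] (c i)) atTop (𝓝 (f^[p] y)) :=
      ((hfc.iterate p).tendsto y).comp hy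
    have h2 : (fun i => f^[p] (c i)) = fun i => c (i + 1) := by
      funext i
      simp only [c]
      rw [← Function.iterate_add_apply]
      congr 1; ring
    rw [h2] at h1
    exact tendsto_nhds_unique h1 ((tendsto_add_atTop_iff_nat 1).2 hy)
  · have h1 : Tendsto (fun i => f^[j] (c i)) atTop (𝓝 (f^[j] y)) :=
      ((hfc.iterate j).tendsto y).comp hy
    have h2 := dist_le_of_le_geometric_of_tendsto₀ (1 / 2) (δ * ε ^ j) (by norm_num)
      (fun i => hcc i j) h1
    have e : f^[m + j] x = f^[j] (c 0) := by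
      simp only [c]
      rw [zero_mul, Function.iterate_zero_apply, ha, ← Function.iterate_add_apply, add_comm]
    rw [e]
    refine h2.trans (le_of_eq ?_)
    ring

section op

variable [CompleteSpace M] {T : FreeSp M o →L[ℂ] FreeSp M o}
  (hT : ∀ x, T (del o x) = del o (f x)) (hc : IsCompactOperator T)
include hT

omit [CompleteSpace M] in
lemma f_cont : Continuous f := by
  have : LipschitzWith ⟨‖T‖, norm_nonneg T⟩ f :=
    LipschitzWith.of_dist_le_mul fun x y => f_lip hT x y
  exact this.continuous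

include hc

omit [CompleteSpace M] in
/-- Orbits are bounded. -/
lemma orbit_mem (x : M) : ∃ ρ : ℝ, ∀ n, f^[n + 1] x ∈ f '' Metric.closedBall o ρ := by
  obtain ⟨R, hR, hrad⟩ := radial hT hc
  refine ⟨max (2 * R) (dist x o), fun n => ?_⟩
  have key : ∀ n, f^[n] x ∈ Metric.closedBall o (max (2 * R) (dist x o)) := by
    intro n
    rw [Metric.mem_closedBall]
    induction n with
    | zero => exact le_max_right _ _
    | succ n ih =>
      rw [Function.iterate_succ_apply']
      have h1 := hrad (f^[n] x)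
      have h2 := le_max_left (2 * R) (dist x o)
      linarith
  exact ⟨f^[n] x, key n, (Function.iterate_succ_apply' f n x).symm⟩

/-- A nonzero eigenfunction of the composition operator does not vanish at some periodic point. -/
lemma exists_periodic {g : M → ℂ} {C : ℝ} (hC : 0 ≤ C)
    (hg : ∀ x y, ‖g x - g y‖ ≤ C * dist x y) {μ : ℂ} (hμ : μ ≠ 0)
    (hgf : ∀ x, g (f x) = μ * g x) {x₀ : M} (hx₀ : g x₀ ≠ 0) :
    ∃ (p : ℕ) (y : M), 1 ≤ p ∧ f^[p] y = y ∧ g y ≠ 0 := by
  have hμ0 : 0 < ‖μ‖ := norm_pos_iff.2 hμ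
  set ε := min (1 / 2) (‖μ‖ / 2) with hε
  have hε0 : 0 < ε := lt_min (by norm_num) (by positivity)
  obtain ⟨δ, hδ0, hδ⟩ := flat hT hc hε0
  obtain ⟨ρ, hρ⟩ := orbit_mem hT hc x₀
  obtain ⟨m, p, y, hp, hpy, hy⟩ := orbit (f_cont hT) (tb_image hT hc ρ) hρ hε0.le (min_le_left _ _)
    hδ0 hδ
  refine ⟨p, y, hp, hpy, fun hgy => ?_⟩
  have hiter : ∀ n x, g (f^[n] x) = μ ^ n * g x := by
    intro n x
    induction n with
    | zero => simp
    | succ n ih => rw [Function.iterate_succ_apply', hgf, ih, pow_succ]; ring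
  have h1 : ∀ j, ‖μ‖ ^ m * ‖g x₀‖ ≤ C * (2 * δ) * (1 / 2) ^ j := by
    intro j
    have h2 := hg (f^[m + j] x₀) (f^[j] y)
    rw [hiter, hiter, hgy, mul_zero, sub_zero, norm_mul, norm_pow] at h2
    have h3 : ‖μ‖ ^ (m + j) * ‖g x₀‖ ≤ C * (2 * δ * ε ^ j) :=
      h2.trans (mul_le_mul_of_nonneg_left (hy j) hC)
    have h4 : ε ^ j ≤ ‖μ‖ ^ j * (1 / 2) ^ j := by
      rw [← mul_pow]
      exact pow_le_pow_left₀ hε0.le (by rw [hε, mul_one_div]; exact min_le_right _ _) j
    have h5 : C * (2 * δ * ε ^ j) ≤ C * (2 * δ * (‖μ‖ ^ j * (1 / 2) ^ j)) :=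
      mul_le_mul_of_nonneg_left (mul_le_mul_of_nonneg_left h4 (by positivity)) hC
    have h6 : ‖μ‖ ^ j * (‖μ‖ ^ m * ‖g x₀‖) ≤ ‖μ‖ ^ j * (C * (2 * δ) * (1 / 2) ^ j) := by
      calc _ = ‖μ‖ ^ (m + j) * ‖g x₀‖ := by rw [pow_add]; ring
        _ ≤ _ := h3.trans h5
        _ = _ := by ring
    exact le_of_mul_le_mul_left h6 (by positivity)
  have h2 : Tendsto (fun j : ℕ => C * (2 * δ) * (1 / 2 : ℝ) ^ j) atTop (𝓝 (C * (2 * δ) * 0)) :=
    (tendsto_pow_atTop_nhds_zero_of_lt_one (by norm_num) (by norm_num)).const_mul _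
  have h3 := ge_of_tendsto' h2 h1
  rw [mul_zero] at h3
  have h4 : 0 < ‖μ‖ ^ m * ‖g x₀‖ := mul_pos (by positivity) (norm_pos_iff.2 hx₀)
  linarith

omit hT hc [MetricSpace M] [CompleteSpace M] in
/-- Minimal periods. -/
lemma exists_min_period {p : ℕ} {y : M} (hp : 1 ≤ p) (hpy : f^[p] y = y) (hyo : y ≠ o) :
    ∃ n ∈ periodSet f o, f^[n] y = y := by
  classical
  have hex : ∃ n, 1 ≤ n ∧ f^[n] y = y := ⟨p, hp, hpy⟩
  refine ⟨Nat.find hex, ⟨(Nat.find_spec hex).1, y, hyo, (Nat.find_spec hex).2, fun k hk hk' h => ?_⟩,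
    (Nat.find_spec hex).2⟩
  exact Nat.find_min hex hk' ⟨hk, h⟩

/-- The spectrum is contained in the union of the groups of roots of unity. -/
lemma spectrum_subset {μ : ℂ} (hμ0 : μ ≠ 0) (hμ : μ ∈ spectrum ℂ T) :
    ∃ n ∈ periodSet f o, μ ^ n = 1 := by
  obtain ⟨φ, hφ0, hφ⟩ := exists_dual_eigenvector hc hμ0 hμ
  set g : M → ℂ := fun x => φ (del o x) with hg
  have hgl : ∀ x y, ‖g x - g y‖ ≤ ‖φ‖ * dist x y := by
    intro x y
    rw [hg]
    simp only
    rw [← map_sub, ← norm_del_sub (o := o) x y]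
    exact φ.le_opNorm _
  have hgf : ∀ x, g (f x) = μ * g x := by
    intro x
    simp only [hg]
    rw [← hT, hφ]
  obtain ⟨x₀, hx₀⟩ : ∃ x₀, g x₀ ≠ 0 := by
    by_contra hcon
    push Not at hcon
    apply hφ0
    refine ContinuousLinearMap.ext_on dense_span (g := (0 : StrongDual ℂ (FreeSp M o))) ?_
    rintro _ ⟨x, rfl⟩
    exact hcon x
  obtain ⟨p, y, hp, hpy, hgy⟩ := exists_periodic hT hc (norm_nonneg φ) hgl hμ0 hgf hx₀
  have hyo : y ≠ o := by
    rintro rfl
    apply hgy
    simp only [hg]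
    rw [del_base, map_zero]
  obtain ⟨n, hn, hny⟩ := exists_min_period hp hpy hyo
  refine ⟨n, hn, ?_⟩
  have hiter : ∀ n x, g (f^[n] x) = μ ^ n * g x := by
    intro n x
    induction n with
    | zero => simp
    | succ n ih => rw [Function.iterate_succ_apply', hgf, ih, pow_succ]; ring
  have h1 := hiter n y
  rw [hny] at h1
  have h2 : (μ ^ n - 1) * g y = 0 := by rw [sub_mul, one_mul, ← h1, sub_self]
  rcases mul_eq_zero.1 h2 with h | h
  · exact sub_eq_zero.1 h
  · exact absurd h hgy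

omit [CompleteSpace M] in
/-- There are finitely many periodic points. -/
lemma finite_periodic : {y : M | ∃ p, 1 ≤ p ∧ f^[p] y = y}.Finite := by
  obtain ⟨R, hR, hrad⟩ := radial hT hc
  obtain ⟨δ, hδ0, hδ⟩ := flat hT hc (show (0 : ℝ) < 1 / 2 by norm_num)
  -- periodic points are in a ball
  have hball : ∀ y : M, ∀ p, 1 ≤ p → f^[p] y = y → dist y o ≤ 2 * R := by
    intro y p hp hpy
    have h1 : ∀ k, dist (f^[k] y) o ≤ 2 * R + (1 / 2) ^ k * dist y o := by
      intro k
      induction k with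
      | zero => simp; linarith
      | succ k ih =>
        rw [Function.iterate_succ_apply']
        have := hrad (f^[k] y)
        rw [pow_succ]
        linarith
    have h2 : ∀ k : ℕ, dist y o ≤ 2 * R + (1 / 2) ^ k * dist y o := by
      intro k
      have h3 : f^[p * k] y = y := by
        rw [Function.iterate_mul]
        exact Function.iterate_fixed hpy k
      have h4 := h1 (p * k)
      rw [h3] at h4
      have h5 : (1 / 2 : ℝ) ^ (p * k) ≤ (1 / 2) ^ k :=
        pow_le_pow_of_le_one (by norm_num) (by norm_num) (Nat.le_mul_of_pos_left k (by omega))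
      have h6 := mul_le_mul_of_nonneg_right h5 (dist_nonneg (x := y) (y := o))
      linarith
    have h3 : Tendsto (fun k : ℕ => 2 * R + (1 / 2 : ℝ) ^ k * dist y o) atTop
        (𝓝 (2 * R + 0 * dist y o)) :=
      ((tendsto_pow_atTop_nhds_zero_of_lt_one (by norm_num) (by norm_num)).mul_const _).const_add _
    have h4 := ge_of_tendsto' h3 h2
    linarith
  have htb := tb_image hT hc (2 * R)
  obtain ⟨t, ht, hcov⟩ := Metric.totallyBounded_iff.1 htb (δ / 2) (by positivity)
  have hch : ∀ y : {y : M | ∃ p, 1 ≤ p ∧ f^[p] y = y}, ∃ c : t, dist (y : M) c < δ / 2 := by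
    rintro ⟨y, p, hp, hpy⟩
    have h1 : y ∈ f '' Metric.closedBall o (2 * R) := by
      obtain ⟨q, rfl⟩ : ∃ q, p = q + 1 := ⟨p - 1, by omega⟩
      refine ⟨f^[q] y, ?_, ?_⟩
      · refine hball _ (q + 1) hp ?_
        rw [← Function.iterate_add_apply, add_comm, Function.iterate_add_apply, hpy]
      · rw [← Function.iterate_succ_apply' f q y]; exact hpy
    have h2 := hcov h1
    simp only [mem_iUnion, exists_prop] at h2
    obtain ⟨c, hc, hd⟩ := h2
    exact ⟨⟨c, hc⟩, hd⟩
  choose c hcd using hch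
  have hinj : Function.Injective c := by
    rintro ⟨y, p, hp, hpy⟩ ⟨z, q, hq, hqz⟩ hyz
    apply Subtype.ext
    have h1 := hcd ⟨y, p, hp, hpy⟩
    have h2 := hcd ⟨z, q, hq, hqz⟩
    rw [← hyz] at h2
    have h3 : dist y z < δ := by
      have := dist_triangle_right y z (c ⟨y, p, hp, hpy⟩ : M)
      simp only at h1 h2
      linarith
    have h4 := contract (by norm_num) (by norm_num) hδ h3 (p * q)
    have e1 : f^[p * q] y = y := by rw [Function.iterate_mul]; exact Function.iterate_fixed hpy q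
    have e2 : f^[p * q] z = z := by
      rw [mul_comm, Function.iterate_mul]; exact Function.iterate_fixed hqz p
    rw [e1, e2] at h4
    have h5 : (1 / 2 : ℝ) ^ (p * q) ≤ 1 / 2 := by
      calc (1 / 2 : ℝ) ^ (p * q) ≤ (1 / 2) ^ 1 :=
            pow_le_pow_of_le_one (by norm_num) (by norm_num) (Nat.mul_pos hp hq)
        _ = _ := pow_one _
    have h6 : dist y z ≤ 1 / 2 * dist y z :=
      h4.trans (mul_le_mul_of_nonneg_right h5 dist_nonneg)
    have h7 : dist y z ≤ 0 := by linarith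
    exact dist_le_zero.1 h7
  have : Finite t := ht.to_subtype
  have h8 := Finite.of_injective c hinj
  exact Set.toFinite _

omit [CompleteSpace M] in
/-- There are finitely many orders. -/
lemma finite_periodSet : (periodSet f o).Finite := by
  have h1 := finite_periodic hT hc
  choose x hx using fun n : periodSet f o => n.2.2
  have hmem : ∀ n : periodSet f o, x n ∈ {y : M | ∃ p, 1 ≤ p ∧ f^[p] y = y} := fun n =>
    ⟨n, n.2.1, (hx n).2.1⟩
  have hinj : Function.Injective fun n : periodSet f o =>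
      (⟨x n, hmem n⟩ : {y : M | ∃ p, 1 ≤ p ∧ f^[p] y = y}) := by
    intro m n hmn
    have hxx : x m = x n := congrArg Subtype.val hmn
    apply Subtype.ext
    rcases lt_trichotomy (m : ℕ) n with h | h | h
    · exfalso
      refine (hx n).2.2 m m.2.1 h ?_
      rw [← hxx]; exact (hx m).2.1
    · exact h
    · exfalso
      refine (hx m).2.2 n n.2.1 h ?_
      rw [hxx]; exact (hx n).2.1
  have : Finite {y : M | ∃ p, 1 ≤ p ∧ f^[p] y = y} := h1.to_subtype
  have h8 := Finite.of_injective _ hinj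
  exact Set.toFinite _

omit [CompleteSpace M] in
/-- Roots of unity are eigenvalues. -/
lemma mem_spectrum {n : ℕ} (hn : n ∈ periodSet f o) {μ : ℂ} (hμ : μ ^ n = 1) :
    μ ∈ spectrum ℂ T ∧ μ ≠ 0 := by
  obtain ⟨hn1, x, hxo, hxn, hxk⟩ := hn
  have hμ0 : μ ≠ 0 := by
    rintro rfl
    rw [zero_pow (by omega)] at hμ
    exact zero_ne_one hμ
  refine ⟨?_, hμ0⟩
  set γ : FreeSp M o := ∑ k ∈ Finset.range n, (μ⁻¹) ^ k • del o (f^[k] x) with hγ
  have hTγ : T γ = μ • γ := by
    have h1 : T γ = ∑ k ∈ Finset.range n, μ • ((μ⁻¹) ^ (k + 1) • del o (f^[k + 1] x)) := by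
      rw [hγ, map_sum]
      refine Finset.sum_congr rfl fun k _ => ?_
      rw [map_smul, hT, smul_smul, Function.iterate_succ_apply']
      congr 1
      rw [pow_succ]
      field_simp
    rw [h1, ← Finset.smul_sum]
    congr 1
    have h2 := Finset.sum_range_succ (fun k => (μ⁻¹) ^ k • del o (f^[k] x)) n
    have h3 := Finset.sum_range_succ' (fun k => (μ⁻¹) ^ k • del o (f^[k] x)) n
    rw [h2] at h3
    simp only [inv_pow, hμ, inv_one, one_smul, hxn, pow_zero, Function.iterate_zero_apply] at h3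
    have h4 := add_right_cancel h3
    simp only [inv_pow] at hγ ⊢
    rw [hγ]
    exact h4.symm
  have hγ0 : γ ≠ 0 := by
    -- a test function
    have hfin : (insert o ((fun k => f^[k] x) '' (Finset.Ico 1 n : Set ℕ))).Finite :=
      ((Finset.finite_toSet _).image _).insert o
    have hxnot : x ∉ insert o ((fun k => f^[k] x) '' (Finset.Ico 1 n : Set ℕ)) := by
      rintro (h | ⟨k, hk, hkx⟩)
      · exact hxo h
      · rw [Finset.coe_Ico, mem_Ico] at hk
        exact hxk k hk.1 hk.2 hkx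
    obtain ⟨s, hs, hsep⟩ := exists_sep (hfin.insert x)
    have hh : ∀ a ∈ insert o ((fun k => f^[k] x) '' (Finset.Ico 1 n : Set ℕ)), s ≤ dist a x := by
      intro a ha
      exact hsep a (Or.inr ha) x (Or.inl rfl) (fun h => hxnot (h ▸ ha))
    set g := bump (insert o ((fun k => f^[k] x) '' (Finset.Ico 1 n : Set ℕ))) (mem_insert _ _) x s hh
      with hg
    have hgx : g.fn x = (s : ℂ) := by
      change ((max 0 (s - dist x x) : ℝ) : ℂ) = _
      rw [dist_self, sub_zero, max_eq_right hs.le]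
    have hg0 : ∀ k, 1 ≤ k → k < n → g.fn (f^[k] x) = 0 := by
      intro k hk hkn
      change ((max 0 (s - dist (f^[k] x) x) : ℝ) : ℂ) = _
      rw [max_eq_left]
      · rfl
      · have := hh (f^[k] x) (Or.inr ⟨k, by simpa using ⟨hk, hkn⟩, rfl⟩)
        linarith
    intro h0
    have h1 : ev g γ = (s : ℂ) := by
      rw [hγ, map_sum, Finset.sum_eq_single_of_mem 0 (Finset.mem_range.2 (by omega))]
      · rw [map_smul, pow_zero, one_smul, ev_del]; exact hgx
      · intro k hk hk0
        rw [map_smul, ev_del, hg0 k (by omega) (Finset.mem_range.1 hk), smul_zero]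
    rw [h0, map_zero] at h1
    have : (s : ℂ) ≠ 0 := by exact_mod_cast hs.ne'
    exact this h1.symm
  refine (hc.hasEigenvalue_iff_mem_spectrum hμ0).1 ?_
  exact Module.End.hasEigenvalue_of_hasEigenvector (x := γ)
    ⟨Module.End.mem_eigenspace_iff.2 hTγ, hγ0⟩

/-- The main theorem. -/
theorem main : (periodSet f o).Finite ∧
    spectrum ℂ T \ {0} = ⋃ n ∈ periodSet f o, {z : ℂ | z ^ n = 1} := by
  refine ⟨finite_periodSet hT hc, ?_⟩
  ext μ
  simp only [Set.mem_sdiff, mem_singleton_iff, mem_iUnion, mem_ofPred_eq, exists_prop]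
  constructor
  · rintro ⟨h1, h2⟩
    exact spectrum_subset hT hc h2 h1
  · rintro ⟨n, hn, h⟩
    exact mem_spectrum hT hc hn h

end op

end Q99.CL
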